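import Pool.Agent.Work.MP_af796d_an.One.Main

namespace Pool.Agent.Results.MP_af796d_an.DyadicOne

open Pool.Agent.Work.MP_af796d_an in
/-- If, uniformly in the base point y, the function t ↦ log |ψ(e^{it}) - ψ(e^{iy})| is on the
dyadic arcs around y a multiple c_k of log |e^{it} - e^{iy}| up to summable variations, with c_k
of bounded variation in k, then Re A = Re A ∘ ψ. -/
theorem result (ψ : Circle ≃ₜ Circle)
    (h : ∃ C : NNReal, ∀ y : ℝ, ∃ c : ℕ → ℝ,
      ∑' k : ℕ, (ENNReal.ofReal |c (k + 1) - c k| + dyadicVar ψ y (c k) k) ≤ C) :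
    ReA = (fun u : Circle → ℝ => u ∘ ψ) '' ReA :=
  One.dyadic_one ψ h

end Pool.Agent.Results.MP_af796d_an.DyadicOne
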