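import Pool.Agent.Work.MP_af796d_an.H.St2
import Pool.Agent.Work.MP_af796d_an.H.Final

namespace Pool.Agent.Results.MP_af796d_an.HelsonSzego

open Pool.Agent.Work.MP_af796d_an in
/-- A homeomorphism ψ of the circle satisfies Re A = Re A ∘ ψ if and only if it is absolutely
continuous, |Ψ'| = e^b is an A_∞ weight, and b = u + ṽ with u and v in the uniform
de la Vallée Poussin class. -/
theorem result (ψ : Circle ≃ₜ Circle) :
    ReA = (fun u : Circle → ℝ => u ∘ ψ) '' ReA ↔ HS ψ :=
  (H.final_both (fun _ h => H.st1 h) (fun _ _ h1 h2 h3 h4 => H.st2 h1 h2 h3 h4) ψ).1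

end Pool.Agent.Results.MP_af796d_an.HelsonSzego
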