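import Pool.Agent.Work.MP_af796d_an.One.Main

namespace Pool.Agent.Results.MP_af796d_an.LogPotentialOne

open Pool.Agent.Work.MP_af796d_an in
/-- A homeomorphism ψ of the circle satisfies Re A = Re A ∘ ψ if and only if the functions
t ↦ log |ψ(e^{it}) - ψ(e^{iy})| are, uniformly in y, the sum of a function of bounded variation
and the logarithmic potential of a finite signed measure on the circle. -/
theorem result (ψ : Circle ≃ₜ Circle) :
    ReA = (fun u : Circle → ℝ => u ∘ ψ) '' ReA ↔ LogPotCond ψ :=
  One.logPot_one ψ

end Pool.Agent.Results.MP_af796d_an.LogPotentialOne
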