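import Pool.Agent.Work.MP_af796d_an.Mod3

namespace Pool.Agent.Results.MP_af796d_an.SharpModulus

open Pool.Agent.Work.MP_af796d_an in
/-- For a modulus of continuity ω, every circle homeomorphism whose lift has a nowhere vanishing
derivative with modulus of continuity O(ω) preserves Re A if and only if ω satisfies the Dini
condition. -/
theorem result (ω : ℝ → ℝ) (hω : IsModulus ω) :
    (∀ ψ : Circle ≃ₜ Circle, IsC1Mod ω ψ → ReA = (fun u : Circle → ℝ => u ∘ ψ) '' ReA) ↔
      MeasureTheory.IntegrableOn (fun t => ω t / t) (Set.Ioc 0 1) :=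
  ⟨fun h => (dini_iff hω).2 (summable_of_eq hω h),
    fun h ψ hψ => eq_of_C1Mod hω ((dini_iff hω).1 h) ψ hψ⟩

end Pool.Agent.Results.MP_af796d_an.SharpModulus
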